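import Pool.Agent.Helper25.PCap.Defs

/-!
Planar p-capacity: calculus basics on open sets of the plane.
-/

set_option autoImplicit false

open MeasureTheory Set Filter Topology
open scoped ContDiff Real

noncomputable section

namespace Pool.Agent.Helper10.PCap

open Pool.Agent.Helper25.PCap

variable {f g : ℝ × ℝ → ℝ} {O : Set (ℝ × ℝ)}

theorem smoothD (hO : IsOpen O) (hf : ContDiffOn ℝ ∞ f O) (v : ℝ × ℝ) :
    ContDiffOn ℝ ∞ (fun z => fderiv ℝ f z v) O :=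
  (hf.fderiv_of_isOpen hO (m := ∞) (by simp)).clm_apply contDiffOn_const

theorem smoothD1 (hO : IsOpen O) (hf : ContDiffOn ℝ ∞ f O) : ContDiffOn ℝ ∞ (D1 f) O :=
  smoothD hO hf (1, 0)

theorem smoothD2 (hO : IsOpen O) (hf : ContDiffOn ℝ ∞ f O) : ContDiffOn ℝ ∞ (D2 f) O :=
  smoothD hO hf (0, 1)

theorem diffAt (hO : IsOpen O) (hf : ContDiffOn ℝ ∞ f O) {z : ℝ × ℝ} (hz : z ∈ O) :
    DifferentiableAt ℝ f z :=
  (hf.contDiffAt (hO.mem_nhds hz)).differentiableAt (by simp)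

theorem hasDerivAt1 {f : ℝ × ℝ → ℝ} {t x : ℝ} (hf : DifferentiableAt ℝ f (t, x)) :
    HasDerivAt (fun s => f (s, x)) (D1 f (t, x)) t := by
  have h1 : HasFDerivAt f (fderiv ℝ f (t, x)) (t, x) := hf.hasFDerivAt
  have h2 : HasDerivAt (fun s : ℝ => ((s, x) : ℝ × ℝ)) ((1, 0) : ℝ × ℝ) t :=
    (hasDerivAt_id t).prodMk (hasDerivAt_const t x)
  exact h1.comp_hasDerivAt t h2

theorem hasDerivAt2 {f : ℝ × ℝ → ℝ} {t x : ℝ} (hf : DifferentiableAt ℝ f (t, x)) :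
    HasDerivAt (fun s => f (t, s)) (D2 f (t, x)) x := by
  have h1 : HasFDerivAt f (fderiv ℝ f (t, x)) (t, x) := hf.hasFDerivAt
  have h2 : HasDerivAt (fun s : ℝ => ((t, s) : ℝ × ℝ)) ((0, 1) : ℝ × ℝ) x :=
    (hasDerivAt_const x t).prodMk (hasDerivAt_id x)
  exact h1.comp_hasDerivAt x h2

/-- periodicity passes to derivatives -/
theorem fderiv_per (hp : ∀ τ θ, f (τ, θ + 2 * π) = f (τ, θ)) (τ θ : ℝ) (v : ℝ × ℝ) :
    fderiv ℝ f (τ, θ + 2 * π) v = fderiv ℝ f (τ, θ) v := by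
  have h : f = fun z : ℝ × ℝ => f (z + (0, 2 * π)) := by
    funext z
    obtain ⟨a, b⟩ := z
    simp [hp a b]
  have h2 : fderiv ℝ f (τ, θ) = fderiv ℝ f ((τ, θ) + (0, 2 * π)) := by
    conv_lhs => rw [h]
    exact fderiv_comp_add_right (f := f) (x := (τ, θ)) ((0, 2 * π) : ℝ × ℝ)
  rw [h2]
  simp

theorem D1_per (hp : ∀ τ θ, f (τ, θ + 2 * π) = f (τ, θ)) (τ θ : ℝ) :
    D1 f (τ, θ + 2 * π) = D1 f (τ, θ) := fderiv_per hp τ θ _

theorem D2_per (hp : ∀ τ θ, f (τ, θ + 2 * π) = f (τ, θ)) (τ θ : ℝ) :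
    D2 f (τ, θ + 2 * π) = D2 f (τ, θ) := fderiv_per hp τ θ _

/-- mixed second derivatives commute -/
theorem D_comm (hO : IsOpen O) (hf : ContDiffOn ℝ ∞ f O) {z : ℝ × ℝ} (hz : z ∈ O) (v w : ℝ × ℝ) :
    fderiv ℝ (fun y => fderiv ℝ f y v) z w = fderiv ℝ (fun y => fderiv ℝ f y w) z v := by
  have hc : ContDiffAt ℝ ∞ f z := hf.contDiffAt (hO.mem_nhds hz)
  have hs : IsSymmSndFDerivAt ℝ f z := hc.isSymmSndFDerivAt (by simp only [minSmoothness_of_isRCLikeNormedField]; exact WithTop.coe_le_coe.2 (le_top : (2 : ℕ∞) ≤ ⊤))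
  have hd : DifferentiableAt ℝ (fderiv ℝ f) z :=
    (((hf.fderiv_of_isOpen hO (m := ∞) (by simp)).contDiffAt (hO.mem_nhds hz))).differentiableAt
      (by simp)
  have e1 : ∀ u : ℝ × ℝ, fderiv ℝ (fun y => fderiv ℝ f y u) z =
      (ContinuousLinearMap.apply ℝ ℝ u).comp (fderiv ℝ (fderiv ℝ f) z) := by
    intro u
    exact ((ContinuousLinearMap.apply ℝ ℝ u).hasFDerivAt.comp z hd.hasFDerivAt).fderiv
  rw [e1 v, e1 w]
  simp only [ContinuousLinearMap.comp_apply, ContinuousLinearMap.apply_apply]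
  exact hs w v

theorem D12_comm (hO : IsOpen O) (hf : ContDiffOn ℝ ∞ f O) {z : ℝ × ℝ} (hz : z ∈ O) :
    D2 (D1 f) z = D1 (D2 f) z := D_comm hO hf hz (1, 0) (0, 1)

theorem eqOn_D (hO : IsOpen O) (h : ∀ z ∈ O, f z = g z) {z : ℝ × ℝ} (hz : z ∈ O) (v : ℝ × ℝ) :
    fderiv ℝ f z v = fderiv ℝ g z v := by
  have : f =ᶠ[𝓝 z] g := by
    filter_upwards [hO.mem_nhds hz] with y hy using h y hy
  rw [this.fderiv_eq]

theorem eqOn_D1 (hO : IsOpen O) (h : ∀ z ∈ O, f z = g z) {z : ℝ × ℝ} (hz : z ∈ O) :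
    D1 f z = D1 g z := eqOn_D hO h hz _

theorem eqOn_D2 (hO : IsOpen O) (h : ∀ z ∈ O, f z = g z) {z : ℝ × ℝ} (hz : z ∈ O) :
    D2 f z = D2 g z := eqOn_D hO h hz _

/-- differentiation under the integral sign -/
theorem hasDerivAt_int (hO : IsOpen O) (hf : ContDiffOn ℝ ∞ f O) (w : ℝ → ℝ) (hw : Continuous w)
    (a b : ℝ) (hab : a ≤ b) (t : ℝ) (ht : ∀ x ∈ Icc a b, (t, x) ∈ O) :
    HasDerivAt (fun s => ∫ x in a..b, f (s, x) * w x) (∫ x in a..b, D1 f (t, x) * w x) t := by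
  -- a tube
  obtain ⟨δ, hδ, htube⟩ : ∃ δ > 0, ∀ s, |s - t| ≤ δ → ∀ x ∈ Icc a b, (s, x) ∈ O := by
    have hK : IsCompact (({t} : Set ℝ) ×ˢ Icc a b) := isCompact_singleton.prod isCompact_Icc
    have hKO : ({t} : Set ℝ) ×ˢ Icc a b ⊆ O := by
      rintro ⟨s, x⟩ ⟨hs, hx⟩
      simp only [mem_singleton_iff] at hs
      subst hs
      exact ht x hx
    obtain ⟨δ, hδ, h⟩ := hK.exists_cthickening_subset_open hO hKO
    refine ⟨δ, hδ, fun s hs x hx => h ?_⟩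
    rw [Metric.mem_cthickening_iff]
    have : Metric.infEDist (s, x) (({t} : Set ℝ) ×ˢ Icc a b) ≤ edist (s, x) (t, x) :=
      Metric.infEDist_le_edist_of_mem ⟨by simp, hx⟩
    refine this.trans ?_
    rw [edist_dist]
    apply ENNReal.ofReal_le_ofReal
    rw [Prod.dist_eq]
    simp [Real.dist_eq, hs]
  have hD1 : ContDiffOn ℝ ∞ (D1 f) O := smoothD1 hO hf
  have hcomp : IsCompact (Icc (t - δ) (t + δ) ×ˢ Icc a b) := isCompact_Icc.prod isCompact_Icc
  have hsub : Icc (t - δ) (t + δ) ×ˢ Icc a b ⊆ O := by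
    rintro ⟨s, x⟩ ⟨hs, hx⟩
    refine htube s ?_ x hx
    rw [abs_le]
    constructor <;> linarith [hs.1, hs.2]
  have hcont : ContinuousOn (fun z : ℝ × ℝ => D1 f z * w z.2)
      (Icc (t - δ) (t + δ) ×ˢ Icc a b) :=
    (hD1.continuousOn.mono hsub).mul (hw.comp continuous_snd).continuousOn
  obtain ⟨M, hM⟩ := hcomp.exists_bound_of_continuousOn hcont
  have hcontx : ∀ (F : ℝ × ℝ → ℝ), ContDiffOn ℝ ∞ F O → ∀ s, |s - t| ≤ δ →
      ContinuousOn (fun x => F (s, x) * w x) (Icc a b) := by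
    intro F hF s hs
    refine ContinuousOn.mul (hF.continuousOn.comp (by fun_prop) ?_) hw.continuousOn
    intro x hx
    exact htube s hs x hx
  have hu : uIoc a b = Ioc a b := uIoc_of_le hab
  have hint : ∀ (F : ℝ × ℝ → ℝ), ContDiffOn ℝ ∞ F O → ∀ s, |s - t| ≤ δ →
      IntervalIntegrable (fun x => F (s, x) * w x) volume a b := by
    intro F hF s hs
    apply ContinuousOn.intervalIntegrable
    rw [uIcc_of_le hab]
    exact hcontx F hF s hs
  refine (intervalIntegral.hasDerivAt_integral_of_dominated_loc_of_deriv_le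
    (μ := volume) (F := fun s x => f (s, x) * w x) (F' := fun s x => D1 f (s, x) * w x)
    (s := Metric.ball t δ) (bound := fun _ => M) (x₀ := t)
    (Metric.ball_mem_nhds t hδ) ?_ ?_ ?_ ?_ ?_ ?_).2
  · filter_upwards [Metric.ball_mem_nhds t hδ] with s hs
    have hs' : |s - t| ≤ δ := by
      rw [Metric.mem_ball, Real.dist_eq] at hs
      exact hs.le
    exact (hint f hf s hs').def'.aestronglyMeasurable
  · exact hint f hf t (by simp [hδ.le])
  · exact (hint (D1 f) hD1 t (by simp [hδ.le])).def'.aestronglyMeasurable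
  · refine Filter.Eventually.of_forall ?_
    intro x hx s hs
    rw [hu] at hx
    rw [Metric.mem_ball, Real.dist_eq, abs_lt] at hs
    have := hM (s, x) ⟨⟨by linarith [hs.1], by linarith [hs.2]⟩, ⟨hx.1.le, hx.2⟩⟩
    exact this
  · exact intervalIntegrable_const
  · refine Filter.Eventually.of_forall ?_
    intro x hx s hs
    rw [hu] at hx
    rw [Metric.mem_ball, Real.dist_eq] at hs
    have hz : (s, x) ∈ O := htube s hs.le x ⟨hx.1.le, hx.2⟩
    exact (hasDerivAt1 (diffAt hO hf hz)).mul_const (w x)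

end Pool.Agent.Helper10.PCap
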