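import Pool.Agent.Helper25.PCap.GoalsF
import Pool.Agent.Helper10.PCap.Basic

set_option autoImplicit false

open MeasureTheory Set Filter Topology
open scoped ContDiff Real

noncomputable section

namespace Pool.Agent.Helper10.PCap

open Pool.Agent.Helper25.PCap

/-- lower bound for the free boundary of a configuration -/
theorem exists_lower {T : ℝ → ℝ} (hc : Continuous T) (hp : ∀ θ, T (θ + 2 * π) = T θ) :
    ∃ t : ℝ, ∀ θ, t ≤ T θ := by
  have hper : Function.Periodic T (2 * π) := hp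
  obtain ⟨x, hx, hmin⟩ := isCompact_Icc.exists_isMinOn (s := Icc (0 : ℝ) (2 * π))
    (nonempty_Icc.2 (by positivity)) hc.continuousOn
  refine ⟨T x, fun θ => ?_⟩
  obtain ⟨y, hy, hy2⟩ := hper.exists_mem_Ico₀ (by positivity) θ
  rw [hy2]
  exact hmin ⟨hy.1, hy.2.le⟩

/-- `v = W + 1` is a decaying solution below the free boundary -/
theorem config_decSol {κ : ℝ} (C : Config κ) {t : ℝ} (ht : ∀ θ, t ≤ C.T θ) :
    DecSol κ (fun z => C.W z + 1) t := by
  have hsub : {z : ℝ × ℝ | z.1 < t} ⊆ C.V := by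
    intro z hz
    exact C.VT z (le_trans (le_of_lt hz) (ht z.2))
  have e1 : ∀ (f : ℝ × ℝ → ℝ), D1 (fun z => f z + 1) = D1 f := by
    intro f; funext z; simp [D1, fderiv_add_const]
  have e2 : ∀ (f : ℝ × ℝ → ℝ), D2 (fun z => f z + 1) = D2 f := by
    intro f; funext z; simp [D2, fderiv_add_const]
  refine ⟨(C.smooth.mono hsub).add contDiffOn_const, ?_, ?_, ?_⟩
  · intro z hz
    have := C.eq z (hsub hz)
    unfold LL at this ⊢
    rw [e1, e2]
    exact this
  · intro τ θ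
    show C.W (τ, θ + 2 * π) + 1 = C.W (τ, θ) + 1
    rw [C.per]
  · obtain ⟨A, γ, hγ, hA⟩ := C.dec
    exact ⟨A, γ, hγ, fun z hz => hA z (le_trans (le_of_lt hz) (ht z.2))⟩

/-- tail estimate -/
theorem tail_bound {κ : ℝ} (hm : Monotone (aa κ)) (c : ℕ → ℂ) (τ₁ τ : ℝ) (hτ : τ ≤ τ₁)
    (hs : Summable (fun n : ℕ => ((n : ℝ) + 1) ^ 5 * ‖c n‖ * Real.exp (aa κ n * τ₁)))
    (N : ℕ) (F : ℕ → ℝ) (S : ℝ) (hF : HasSum F S) (h0 : ∀ n < N, F n = 0)
    (hb : ∀ n, N ≤ n → |F n| ≤ 2 * (((n : ℝ) + 1) ^ 5 * ‖c n‖) * Real.exp (aa κ n * τ)) :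
    |S| ≤ 2 * (∑' n : ℕ, ((n : ℝ) + 1) ^ 5 * ‖c n‖ * Real.exp (aa κ n * τ₁)) *
      Real.exp (-(aa κ N * τ₁)) * Real.exp (aa κ N * τ) := by
  set M : ℕ → ℝ := fun n => ((n : ℝ) + 1) ^ 5 * ‖c n‖ * Real.exp (aa κ n * τ₁) with hM
  set E : ℝ := Real.exp (-(aa κ N * τ₁)) * Real.exp (aa κ N * τ) with hE
  have hEpos : 0 < E := by positivity
  have hMnn : ∀ n, 0 ≤ M n := fun n => by positivity
  have hbound : ∀ n, |F n| ≤ 2 * M n * E := by
    intro n
    rcases lt_or_ge n N with h | h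
    · rw [h0 n h, abs_zero]
      have := hMnn n
      positivity
    · refine (hb n h).trans ?_
      have : Real.exp (aa κ n * τ) ≤ Real.exp (aa κ n * τ₁) * E := by
        rw [hE, ← Real.exp_add, ← Real.exp_add, Real.exp_le_exp]
        have h1 := hm h
        nlinarith
      calc 2 * (((n : ℝ) + 1) ^ 5 * ‖c n‖) * Real.exp (aa κ n * τ)
          ≤ 2 * (((n : ℝ) + 1) ^ 5 * ‖c n‖) * (Real.exp (aa κ n * τ₁) * E) := by gcongr
        _ = 2 * M n * E := by simp only [hM]; ring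
  have hsum : HasSum (fun n => 2 * M n * E) (2 * (∑' n, M n) * E) :=
    ((hs.hasSum).mul_left 2).mul_right E
  have h1 : |S| ≤ 2 * (∑' n, M n) * E := by
    rw [abs_le]
    constructor
    · have := hasSum_le (fun n => (neg_le_of_abs_le (hbound n))) hsum.neg hF
      exact this
    · exact hasSum_le (fun n => le_of_abs_le (hbound n)) hF hsum
  calc |S| ≤ 2 * (∑' n, M n) * E := h1
    _ = _ := by rw [hE]; ring

theorem md_re_le (c : ℕ → ℂ) (n : ℕ) (θ : ℝ) : |(md c n θ).re| ≤ ‖c n‖ := by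
  refine (Complex.abs_re_le_norm _).trans ?_
  unfold md
  rw [norm_mul, Complex.norm_exp_ofReal_mul_I, mul_one]

theorem md_im_le (c : ℕ → ℂ) (n : ℕ) (θ : ℝ) : |(md c n θ).im| ≤ ‖c n‖ := by
  refine (Complex.abs_im_le_norm _).trans ?_
  unfold md
  rw [norm_mul, Complex.norm_exp_ofReal_mul_I, mul_one]

theorem md_zero (c : ℕ → ℂ) (θ : ℝ) : md c 0 θ = c 0 := by
  unfold md
  simp

theorem coef_bound {κ : ℝ} (p q X x : ℝ) (n : ℕ) (hp : |p| ≤ 2 * ((n : ℝ) + 1) ^ 5) (hq : |q| ≤ X)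
    (hX : 0 ≤ X) : |p * q * Real.exp (aa κ n * x)| ≤
      2 * (((n : ℝ) + 1) ^ 5 * X) * Real.exp (aa κ n * x) := by
  rw [abs_mul, abs_mul, abs_of_pos (Real.exp_pos _)]
  have : |p| * |q| ≤ (2 * ((n : ℝ) + 1) ^ 5) * X := by gcongr
  calc |p| * |q| * Real.exp (aa κ n * x) ≤ (2 * ((n : ℝ) + 1) ^ 5) * X * Real.exp (aa κ n * x) := by
        gcongr
    _ = _ := by ring

theorem pkCE (h0 : GExpo) (h2 : GF2) (hc : GCU0) : GCE := by
  intro κ hκ hκ1 C
  obtain ⟨ha0, ha1, hb0, hab, hmono, hsq, hle, hbpos⟩ := h0 κ hκ hκ1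
  have hm : Monotone (aa κ) := monotone_nat_of_le_succ fun n => (hmono n).le
  obtain ⟨t, ht⟩ := exists_lower C.Tcont C.Tper
  have hdec := config_decSol C ht
  obtain ⟨c, hc0, -, -, hc3, hc4⟩ := h2 κ hκ hκ1 _ t hdec
  obtain ⟨hu, -, hu1, -, hu2, hu3, -, -, -⟩ := hc κ hκ hκ1 C
  have eD1 : ∀ (f : ℝ × ℝ → ℝ), D1 (fun z => f z + 1) = D1 f := by
    intro f; funext z; simp [D1, fderiv_add_const]
  have eD2 : ∀ (f : ℝ × ℝ → ℝ), D2 (fun z => f z + 1) = D2 f := by
    intro f; funext z; simp [D2, fderiv_add_const]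
  have ht1 : t - 1 < t := by linarith
  obtain ⟨hsum, hser⟩ := hc4 (t - 1) ht1
  set τ₁ : ℝ := t - 1 with hτ₁
  have hTlow : ∀ θ, τ₁ ≤ C.T θ := fun θ => le_trans ht1.le (ht θ)
  have hV : ∀ τ θ : ℝ, τ ≤ τ₁ → ((τ, θ) : ℝ × ℝ) ∈ C.V := fun τ θ h =>
    C.VT _ (le_trans h (hTlow θ))
  -- the zeroth coefficient
  have hcc : (c 0).re = C.C0 / κ := by
    have e1 := hc3 τ₁ ht1
    have e2 := C.mean τ₁ hTlow
    have hcont : Continuous fun θ => C.W (τ₁, θ) := by
      rw [continuous_iff_continuousAt]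
      intro x
      exact (hasDerivAt2 (diffAt C.Vopen C.smooth (hV τ₁ x le_rfl))).continuousAt
    have e3 : ∫ θ in (0 : ℝ)..(2 * π), (C.W (τ₁, θ) + 1) =
        (∫ θ in (0 : ℝ)..(2 * π), C.W (τ₁, θ)) + 2 * π := by
      rw [intervalIntegral.integral_add (hcont.intervalIntegrable _ _) (by simp)]
      simp
    have e4 : (1 / (2 * π)) * ∫ θ in (0 : ℝ)..(2 * π), (fun z : ℝ × ℝ => C.W z + 1) (τ₁, θ) =
        C.C0 / κ * Real.exp ((1 - κ) * τ₁) := by
      show (1 / (2 * π)) * ∫ θ in (0 : ℝ)..(2 * π), (C.W (τ₁, θ) + 1) = _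
      rw [e3, e2]
      have : (2 * π) ≠ 0 := by positivity
      field_simp
      ring
    rw [e4] at e1
    exact mul_right_cancel₀ (Real.exp_pos _).ne' e1
  set SM : ℝ := ∑' n : ℕ, ((n : ℝ) + 1) ^ 5 * ‖c n‖ * Real.exp (aa κ n * τ₁) with hSM
  have hSMnn : 0 ≤ SM := tsum_nonneg fun n => by positivity
  refine ⟨2 * SM * Real.exp (-(aa κ 1 * τ₁)) + 2 * SM * Real.exp (-(aa κ 2 * τ₁)), τ₁, hTlow, ?_⟩
  intro τ θ hτ
  obtain ⟨s1, s2, s3, s4, s5⟩ := hser τ θ hτ
  simp only [eD1, eD2] at s1 s2 s3 s4 s5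
  -- coefficient bounds
  have hann : ∀ n, 0 ≤ aa κ n := fun n => by
    have := hm (Nat.zero_le n)
    rw [ha0] at this
    linarith
  have hn1 : ∀ n : ℕ, (1 : ℝ) ≤ (n : ℝ) + 1 := fun n => by
    have : (0 : ℝ) ≤ n := Nat.cast_nonneg n
    linarith
  have hp : ∀ (n : ℕ) (k : ℕ), k ≤ 5 → ((n : ℝ) + 1) ^ k ≤ ((n : ℝ) + 1) ^ 5 := fun n k hk =>
    pow_le_pow_right₀ (hn1 n) hk
  have b1 : ∀ n : ℕ, aa κ n ≤ ((n : ℝ) + 1) ^ 5 := fun n => by
    have := hp n 1 (by norm_num)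
    rw [pow_one] at this
    exact (hle n).trans this
  have b2 : ∀ n : ℕ, (aa κ n) ^ 2 ≤ ((n : ℝ) + 1) ^ 5 := fun n => by
    have := hp n 2 (by norm_num)
    refine le_trans ?_ this
    exact pow_le_pow_left₀ (hann n) (hle n) 2
  have b3 : ∀ n : ℕ, (1 : ℝ) ≤ ((n : ℝ) + 1) ^ 5 := fun n => by
    have := hp n 0 (by norm_num)
    simpa using this
  have b4 : ∀ n : ℕ, (n : ℝ) ≤ ((n : ℝ) + 1) ^ 5 := fun n => by
    have := hp n 1 (by norm_num)
    rw [pow_one] at this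
    linarith
  have b5 : ∀ n : ℕ, (n : ℝ) * aa κ n ≤ ((n : ℝ) + 1) ^ 5 := fun n => by
    have := hp n 2 (by norm_num)
    refine le_trans ?_ this
    have hn : (0 : ℝ) ≤ n := Nat.cast_nonneg n
    have := hle n
    have := hann n
    nlinarith
  have hnn : ∀ n : ℕ, (0 : ℝ) ≤ (n : ℝ) := fun n => Nat.cast_nonneg n
  have hK1 : ∀ X : ℝ, |X| ≤ 2 * SM * Real.exp (-(aa κ 1 * τ₁)) * Real.exp (aa κ 1 * τ) →
      |X| ≤ (2 * SM * Real.exp (-(aa κ 1 * τ₁)) + 2 * SM * Real.exp (-(aa κ 2 * τ₁))) *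
        Real.exp τ := by
    intro X hX
    rw [ha1] at hX ⊢
    rw [one_mul, one_mul] at hX
    have : 0 ≤ 2 * SM * Real.exp (-(aa κ 2 * τ₁)) * Real.exp τ := by positivity
    rw [one_mul, add_mul]
    linarith
  have hK2 : ∀ X : ℝ, |X| ≤ 2 * SM * Real.exp (-(aa κ 2 * τ₁)) * Real.exp (aa κ 2 * τ) →
      |X| ≤ (2 * SM * Real.exp (-(aa κ 1 * τ₁)) + 2 * SM * Real.exp (-(aa κ 2 * τ₁))) *
        Real.exp (aa κ 2 * τ) := by
    intro X hX
    have : 0 ≤ 2 * SM * Real.exp (-(aa κ 1 * τ₁)) * Real.exp (aa κ 2 * τ) := by positivity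
    rw [add_mul]
    linarith
  -- generic removal of the zeroth term
  have hrem : ∀ (p q : ℕ → ℝ) (S : ℝ), HasSum (fun n => p n * q n * Real.exp (aa κ n * τ)) S →
      (∀ n, |p n| ≤ 2 * ((n : ℝ) + 1) ^ 5) → (∀ n, |q n| ≤ ‖c n‖) → ∀ N : ℕ, 1 ≤ N →
      (∀ n, 1 ≤ n → n < N → p n = 0) →
      |S - p 0 * q 0 * Real.exp ((1 - κ) * τ)| ≤
        2 * SM * Real.exp (-(aa κ N * τ₁)) * Real.exp (aa κ N * τ) := by
    intro p q S hS hp1 hq1 N hN hz
    have hsub := hS.sub (hasSum_ite_eq (0 : ℕ) (p 0 * q 0 * Real.exp (aa κ 0 * τ)))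
    rw [ha0] at hsub
    refine tail_bound hm c τ₁ τ hτ hsum N _ _ hsub ?_ ?_
    · intro n hn
      rcases Nat.eq_zero_or_pos n with h | h
      · subst h
        simp [ha0]
      · rw [hz n h hn]
        simp [h.ne']
    · intro n hn
      have hne : n ≠ 0 := by omega
      simp only [hne, if_false, sub_zero]
      exact coef_bound (p n) (q n) ‖c n‖ τ n (hp1 n) (hq1 n) (norm_nonneg _)
  have hre := fun n => md_re_le c n θ
  have him := fun n => md_im_le c n θ
  have hz0 : (md c 0 θ).re = C.C0 / κ := by rw [md_zero, hcc]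
  have hz1 : (md c 0 θ).im = 0 := by rw [md_zero, hc0]
  have hκ0 : κ ≠ 0 := hκ.ne'
  have hmem := hV τ θ hτ
  refine ⟨?_, ?_, ?_, ?_, ?_, ?_⟩
  · apply hK1
    have := hrem (fun _ => 1) (fun n => (md c n θ).re) (C.W (τ, θ) + 1)
      (by simpa only [one_mul] using s1) (fun n => by
        rw [abs_one]; linarith [b3 n]) hre 1 le_rfl (fun n h1 h2 => by omega)
    simpa only [one_mul, hz0] using this
  · apply hK1
    have := hrem (fun n => aa κ n) (fun n => (md c n θ).re) (D1 C.W (τ, θ))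
      s2 (fun n => by
        rw [abs_of_nonneg (hann n)]; linarith [b1 n, b3 n]) hre 1 le_rfl (fun n h1 h2 => by omega)
    simpa only [ha0, hz0] using this
  · apply hK1
    have := hrem (fun n => -(n : ℝ)) (fun n => (md c n θ).im) (D2 C.W (τ, θ))
      (by simpa only [neg_mul] using s3) (fun n => by
        rw [abs_neg, abs_of_nonneg (hnn n)]; linarith [b4 n, b3 n]) him 1 le_rfl
        (fun n h1 h2 => by omega)
    simpa [hz1] using this
  · apply hK2
    have hs := s1.sub s2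
    have hs' : HasSum (fun n => (1 - aa κ n) * (md c n θ).re * Real.exp (aa κ n * τ))
        (C.u (τ, θ)) := by
      have e : C.u (τ, θ) = C.W (τ, θ) + 1 - D1 C.W (τ, θ) := by
        show 1 + C.W (τ, θ) - D1 C.W (τ, θ) = _
        ring
      rw [e]
      refine hs.congr_fun ?_
      intro n
      ring
    have := hrem (fun n => 1 - aa κ n) (fun n => (md c n θ).re) _ hs' (fun n => by
        rw [abs_le]; constructor <;> linarith [b1 n, b3 n, hann n]) hre 2 (by norm_num)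
        (fun n h1 h2 => by
          have : n = 1 := by omega
          rw [this, ha1, sub_self])
    have e : (1 - aa κ 0) * (md c 0 θ).re = C.C0 := by
      rw [ha0, hz0]
      field_simp
      ring
    rw [e] at this
    exact this
  · apply hK2
    have hs := s2.sub s4
    have hs' : HasSum (fun n => (aa κ n - (aa κ n) ^ 2) * (md c n θ).re * Real.exp (aa κ n * τ))
        (D1 C.u (τ, θ)) := by
      rw [hu1 _ hmem]
      refine hs.congr_fun ?_
      intro n
      ring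
    have := hrem (fun n => aa κ n - (aa κ n) ^ 2) (fun n => (md c n θ).re) _ hs' (fun n => by
        rw [abs_le]; constructor <;> nlinarith [b1 n, b2 n, b3 n, hann n, sq_nonneg (aa κ n)]) hre
        2 (by norm_num)
        (fun n h1 h2 => by
          have : n = 1 := by omega
          rw [this, ha1]; norm_num)
    have e : (aa κ 0 - (aa κ 0) ^ 2) * (md c 0 θ).re = (1 - κ) * C.C0 := by
      rw [ha0, hz0]
      field_simp
      ring
    rw [e] at this
    exact this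
  · apply hK2
    have hs := s3.sub s5
    have hs' : HasSum (fun n => (aa κ n * (n : ℝ) - (n : ℝ)) * (md c n θ).im *
        Real.exp (aa κ n * τ)) (D2 C.u (τ, θ)) := by
      rw [hu2 _ hmem, ← hu3 _ hmem]
      refine hs.congr_fun ?_
      intro n
      ring
    have := hrem (fun n => aa κ n * (n : ℝ) - (n : ℝ)) (fun n => (md c n θ).im) _ hs' (fun n => by
        rw [abs_le]
        have h1 := b5 n
        have h2 := b4 n
        have h3 := hann n
        have h4 := hnn n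
        have h5 := mul_nonneg h4 h3
        constructor <;> nlinarith) him 2 (by norm_num)
        (fun n h1 h2 => by
          have : n = 1 := by omega
          rw [this, ha1]; norm_num)
    simpa [hz1] using this

end Pool.Agent.Helper10.PCap
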