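import Pool.Agent.Helper25.PCap.GoalsF
import Pool.Agent.Helper10.PCap.Basic

set_option autoImplicit false

open MeasureTheory Set Filter Topology
open scoped ContDiff Real

noncomputable section

namespace Pool.Agent.Helper10.PCap

open Pool.Agent.Helper25.PCap

variable {f g : ℝ × ℝ → ℝ} {O : Set (ℝ × ℝ)}

theorem D_lin (v : ℝ × ℝ) {z : ℝ × ℝ} (a b : ℝ) (hf : DifferentiableAt ℝ f z)
    (hg : DifferentiableAt ℝ g z) :
    fderiv ℝ (fun y => a * f y + b * g y) z v = a * fderiv ℝ f z v + b * fderiv ℝ g z v := by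
  have h : HasFDerivAt (fun y => a * f y + b * g y)
      (a • fderiv ℝ f z + b • fderiv ℝ g z) z :=
    (hf.hasFDerivAt.const_mul a).add (hg.hasFDerivAt.const_mul b)
  rw [h.fderiv]
  simp

theorem D_comm' (hO : IsOpen O) (hf : ContDiffOn ℝ ∞ f O) (v w : ℝ × ℝ) :
    ∀ z ∈ O, fderiv ℝ (fun y => fderiv ℝ f y v) z w = fderiv ℝ (fun y => fderiv ℝ f y w) z v :=
  fun _ hz => D_comm hO hf hz v w

/-- if `LL f = 0` on `O`, so is `LL (D1 f)` -/
theorem LL_D1 {κ : ℝ} (hO : IsOpen O) (hf : ContDiffOn ℝ ∞ f O) (h : ∀ z ∈ O, LL κ f z = 0)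
    {z : ℝ × ℝ} (hz : z ∈ O) : LL κ (D1 f) z = 0 := by
  have h1 := smoothD1 hO hf
  have h2 := smoothD2 hO hf
  have h11 := smoothD1 hO h1
  have h22 := smoothD2 hO h2
  -- D1 of LL f
  have e0 : D1 (LL κ f) z = 0 := by
    rw [eqOn_D1 (g := fun _ => 0) hO (fun y hy => h y hy) hz]
    simp [D1]
  have e1 : D1 (LL κ f) z = D1 (D1 (D1 f)) z - (1 - κ) * D1 (D1 f) z + κ * D1 (D2 (D2 f)) z := by
    have : HasFDerivAt (LL κ f) (fderiv ℝ (D1 (D1 f)) z - (1 - κ) • fderiv ℝ (D1 f) z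
        + κ • fderiv ℝ (D2 (D2 f)) z) z :=
      ((diffAt hO h11 hz).hasFDerivAt.sub ((diffAt hO h1 hz).hasFDerivAt.const_mul (1 - κ))).add
        ((diffAt hO h22 hz).hasFDerivAt.const_mul κ)
    show fderiv ℝ (LL κ f) z (1, 0) = _
    rw [this.fderiv]
    simp [D1]
  have e2 : D1 (D2 (D2 f)) z = D2 (D2 (D1 f)) z := by
    rw [← D12_comm hO h2 hz]
    exact (eqOn_D2 hO (fun y hy => D12_comm hO hf hy) hz).symm
  unfold LL
  rw [e0, e2] at e1
  linarith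

theorem pkCU0 : GCU0 := by
  intro κ hκ hκ1 C
  have hO := C.Vopen
  have hW := C.smooth
  have h1 := smoothD1 hO hW
  have h2 := smoothD2 hO hW
  have h11 := smoothD1 hO h1
  have h22 := smoothD2 hO h2
  have hu : ContDiffOn ℝ ∞ C.u C.V := by
    have : ContDiffOn ℝ ∞ (fun z => 1 + C.W z - D1 C.W z) C.V :=
      (contDiffOn_const.add hW).sub h1
    exact this
  have hDu : ∀ z ∈ C.V, ∀ v : ℝ × ℝ, fderiv ℝ C.u z v =
      fderiv ℝ C.W z v - fderiv ℝ (D1 C.W) z v := by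
    intro z hz v
    have : HasFDerivAt C.u (fderiv ℝ C.W z - fderiv ℝ (D1 C.W) z) z :=
      ((diffAt hO hW hz).hasFDerivAt.const_add 1).sub (diffAt hO h1 hz).hasFDerivAt
    rw [this.fderiv]
    simp
  have hu1 : ∀ z ∈ C.V, D1 C.u z = D1 C.W z - D1 (D1 C.W) z := fun z hz => hDu z hz _
  have hu2' : ∀ z ∈ C.V, D2 C.u z = D2 C.W z - D2 (D1 C.W) z := fun z hz => hDu z hz _
  have hu2 : ∀ z ∈ C.V, D2 C.u z = D2 C.W z - D1 (D2 C.W) z := by
    intro z hz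
    rw [hu2' z hz, D12_comm hO hW hz]
  have hLD := fun z (hz : z ∈ C.V) => LL_D1 hO hW C.eq hz
  refine ⟨hu, ?_, hu1, ?_, hu2, fun z hz => D12_comm hO hW hz, ?_, ?_, ?_⟩
  · intro z hz
    have a1 : D1 (D1 C.u) z = D1 (D1 C.W) z - D1 (D1 (D1 C.W)) z := by
      rw [eqOn_D1 hO hu1 hz]
      have : HasFDerivAt (fun y => D1 C.W y - D1 (D1 C.W) y)
          (fderiv ℝ (D1 C.W) z - fderiv ℝ (D1 (D1 C.W)) z) z :=
        (diffAt hO h1 hz).hasFDerivAt.sub (diffAt hO h11 hz).hasFDerivAt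
      show fderiv ℝ (fun y => D1 C.W y - D1 (D1 C.W) y) z (1, 0) = _
      rw [this.fderiv]
      simp [D1]
    have h21 := smoothD2 hO h1
    have a2 : D2 (D2 C.u) z = D2 (D2 C.W) z - D2 (D2 (D1 C.W)) z := by
      rw [eqOn_D2 hO hu2' hz]
      have : HasFDerivAt (fun y => D2 C.W y - D2 (D1 C.W) y)
          (fderiv ℝ (D2 C.W) z - fderiv ℝ (D2 (D1 C.W)) z) z :=
        (diffAt hO h2 hz).hasFDerivAt.sub (diffAt hO h21 hz).hasFDerivAt
      show fderiv ℝ (fun y => D2 C.W y - D2 (D1 C.W) y) z (0, 1) = _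
      rw [this.fderiv]
      simp [D2]
    have b1 := C.eq z hz
    have b2 := hLD z hz
    unfold LL at b1 b2 ⊢
    rw [a1, a2, hu1 z hz]
    linarith
  · intro z hz
    have b1 := C.eq z hz
    unfold LL at b1
    rw [hu1 z hz]
    linarith
  · intro τ θ
    show 1 + C.W (τ, θ + 2 * π) - D1 C.W (τ, θ + 2 * π) = 1 + C.W (τ, θ) - D1 C.W (τ, θ)
    rw [C.per, D1_per C.per]
  · intro θ
    show 1 + C.W (C.T θ, θ) - D1 C.W (C.T θ, θ) = 1
    rw [C.bdry θ]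
    ring
  · intro z hz
    rw [hu1 z (C.VT z hz)]
    exact C.upos z hz

end Pool.Agent.Helper10.PCap
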