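import Pool.Agent.Helper25.PCap.GoalsF
import Pool.Agent.Helper10.PCap.Basic

set_option autoImplicit false

open MeasureTheory Set Filter Topology
open scoped ContDiff Real

noncomputable section

namespace Pool.Agent.Helper10.PCap

open Pool.Agent.Helper25.PCap

/-- a decaying solution of `V'' - (a-b) V' = a b V` is a multiple of `e^{aτ}` -/
theorem ode_decay (a b : ℝ) (ha : 0 < a) (hb : 0 ≤ b) (V V' V'' : ℝ → ℝ) (τ₀ : ℝ)
    (h1 : ∀ τ < τ₀, HasDerivAt V (V' τ) τ) (h2 : ∀ τ < τ₀, HasDerivAt V' (V'' τ) τ)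
    (hode : ∀ τ < τ₀, V'' τ - (a - b) * V' τ = a * b * V τ)
    (hlim : Tendsto V atBot (𝓝 0)) (τ τ₁ : ℝ) (hτ : τ < τ₀) (hτ₁ : τ₁ < τ₀) :
    V τ = Real.exp (a * (τ - τ₁)) * V τ₁ := by
  -- constancy principle
  have hconst : ∀ (G : ℝ → ℝ), (∀ s < τ₀, HasDerivAt G 0 s) → ∀ s < τ₀, G s = G τ₁ := by
    intro G hG s hs
    have hconv : Convex ℝ (Iio τ₀) := convex_Iio τ₀
    exact hconv.is_const_of_fderivWithin_eq_zero (𝕜 := ℝ) (f := G)
      (fun x hx => (hG x hx).differentiableAt.differentiableWithinAt)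
      (fun x hx => by
        rw [fderivWithin_of_isOpen isOpen_Iio hx]
        have := (hG x hx).hasFDerivAt.fderiv
        rw [this]
        simp) hs hτ₁
  set P : ℝ → ℝ := fun s => V' s - a * V s with hP
  have hE : ∀ (c s : ℝ), HasDerivAt (fun x => Real.exp (c * x)) (Real.exp (c * s) * c) s := by
    intro c s
    have h0 : HasDerivAt (fun x : ℝ => c * x) c s := by
      simpa using (hasDerivAt_id s).const_mul c
    exact h0.exp
  have hG1 : ∀ s < τ₀, HasDerivAt (fun x => P x * Real.exp (b * x)) 0 s := by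
    intro s hs
    have hPd : HasDerivAt P (V'' s - a * V' s) s := (h2 s hs).sub ((h1 s hs).const_mul a)
    refine HasDerivAt.congr_deriv (hPd.mul (hE b s)) ?_
    have := hode s hs
    have e : V'' s - a * V' s = -(b * (V' s - a * V s)) := by linarith
    rw [e]
    show -(b * (V' s - a * V s)) * Real.exp (b * s) + (V' s - a * V s) * (Real.exp (b * s) * b) = 0
    ring
  set p : ℝ := P τ₁ * Real.exp (b * τ₁) with hp
  have hPform : ∀ s < τ₀, P s * Real.exp (b * s) = p := fun s hs => hconst _ hG1 s hs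
  have hab : 0 < a + b := by linarith
  set G2 : ℝ → ℝ := fun x => V x * Real.exp (-(a * x)) + p / (a + b) * Real.exp (-((a + b) * x))
    with hG2
  have hG2' : ∀ s < τ₀, HasDerivAt G2 0 s := by
    intro s hs
    have e1 := (h1 s hs).mul (hE (-a) s)
    have e2 := (hE (-(a + b)) s).const_mul (p / (a + b))
    have e3 := e1.add e2
    have hfun : G2 = fun x => V x * Real.exp (-a * x) + p / (a + b) * Real.exp (-(a + b) * x) := by
      funext x
      simp only [hG2]
      rw [neg_mul, neg_mul]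
    rw [hfun]
    refine HasDerivAt.congr_deriv (f' := (V' s * Real.exp (-a * s) + V s * (Real.exp (-a * s) * -a)
      + p / (a + b) * (Real.exp (-(a + b) * s) * -(a + b)))) e3 ?_
    have hps := hPform s hs
    simp only [hP] at hps
    have e4 : Real.exp (-(a + b) * s) = Real.exp (-a * s) * Real.exp (-(b * s)) := by
      rw [← Real.exp_add]; congr 1; ring
    have e5 : V' s - a * V s = p * Real.exp (-(b * s)) := by
      rw [← hps, mul_assoc, ← Real.exp_add]
      simp
    rw [e4]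
    have hne : a + b ≠ 0 := hab.ne'
    field_simp
    have : V' s = a * V s + p * Real.exp (-(b * s)) := by linarith
    rw [this]
    ring
  set c : ℝ := G2 τ₁ with hc
  have hform : ∀ s < τ₀, V s * Real.exp (-(a * s)) + p / (a + b) * Real.exp (-((a + b) * s)) = c :=
    fun s hs => hconst G2 hG2' s hs
  have hVform : ∀ s < τ₀, V s * Real.exp (b * s) + p / (a + b) = c * Real.exp ((a + b) * s) := by
    intro s hs
    have := hform s hs
    rw [← this, add_mul, mul_assoc, mul_assoc, ← Real.exp_add, ← Real.exp_add]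
    have e1 : -(a * s) + (a + b) * s = b * s := by ring
    have e2 : -((a + b) * s) + (a + b) * s = 0 := by ring
    rw [e1, e2, Real.exp_zero, mul_one]
  -- limit
  have hp0 : p / (a + b) = 0 := by
    have hl1 : Tendsto (fun s => V s * Real.exp (b * s)) atBot (𝓝 0) := by
      rw [Metric.tendsto_nhds] at hlim ⊢
      intro ε hε
      filter_upwards [hlim ε hε, eventually_le_atBot (0 : ℝ)] with s hs hs0
      rw [Real.dist_eq, sub_zero] at hs ⊢
      rw [abs_mul, abs_of_pos (Real.exp_pos _)]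
      have : Real.exp (b * s) ≤ 1 := by
        rw [Real.exp_le_one_iff]
        exact mul_nonpos_of_nonneg_of_nonpos hb hs0
      calc |V s| * Real.exp (b * s) ≤ |V s| * 1 := by gcongr
        _ = |V s| := mul_one _
        _ < ε := hs
    have hl2 : Tendsto (fun s => c * Real.exp ((a + b) * s)) atBot (𝓝 (c * 0)) := by
      apply Tendsto.const_mul
      exact Real.tendsto_exp_atBot.comp (Tendsto.const_mul_atBot hab tendsto_id)
    have hl3 : Tendsto (fun s => V s * Real.exp (b * s) + p / (a + b)) atBot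
        (𝓝 (0 + p / (a + b))) := hl1.add_const _
    have hl4 : Tendsto (fun s => V s * Real.exp (b * s) + p / (a + b)) atBot (𝓝 (c * 0)) := by
      refine hl2.congr' ?_
      filter_upwards [eventually_lt_atBot τ₀] with s hs
      exact (hVform s hs).symm
    have := tendsto_nhds_unique hl3 hl4
    simpa using this
  have hV : ∀ s < τ₀, V s = c * Real.exp (a * s) := by
    intro s hs
    have := hform s hs
    rw [hp0, zero_mul, add_zero] at this
    rw [← this, mul_assoc, ← Real.exp_add]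
    simp
  rw [hV τ hτ, hV τ₁ hτ₁]
  have : Real.exp (a * τ) = Real.exp (a * (τ - τ₁)) * Real.exp (a * τ₁) := by
    rw [← Real.exp_add]; congr 1; ring
  rw [this]
  ring

theorem open_half (τ₀ : ℝ) : IsOpen {z : ℝ × ℝ | z.1 < τ₀} :=
  isOpen_lt continuous_fst continuous_const

/-- second integration by parts -/
theorem int_D2D2 {v : ℝ × ℝ → ℝ} {τ₀ : ℝ} (hv : ContDiffOn ℝ ∞ v {z | z.1 < τ₀})
    (hper : ∀ τ θ, v (τ, θ + 2 * π) = v (τ, θ)) (n : ℕ) (w w' : ℝ → ℝ)
    (hw : ∀ x, HasDerivAt w (w' x) x) (hw' : ∀ x, HasDerivAt w' (-((n : ℝ) ^ 2 * w x)) x)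
    (hwp : w (2 * π) = w 0) (hwp' : w' (2 * π) = w' 0) (τ : ℝ) (hτ : τ < τ₀) :
    ∫ θ in (0 : ℝ)..(2 * π), D2 (D2 v) (τ, θ) * w θ =
      -((n : ℝ) ^ 2 * ∫ θ in (0 : ℝ)..(2 * π), v (τ, θ) * w θ) := by
  have hO := open_half τ₀
  have h2 := smoothD2 hO hv
  have h22 := smoothD2 hO h2
  have hmem : ∀ x : ℝ, ((τ, x) : ℝ × ℝ) ∈ {z : ℝ × ℝ | z.1 < τ₀} := fun x => hτ
  have hcw : Continuous w := continuous_iff_continuousAt.2 fun x => (hw x).continuousAt
  have hcw' : Continuous w' := continuous_iff_continuousAt.2 fun x => (hw' x).continuousAt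
  have hc : ∀ F : ℝ × ℝ → ℝ, ContDiffOn ℝ ∞ F {z | z.1 < τ₀} → Continuous fun x => F (τ, x) := by
    intro F hF
    rw [continuous_iff_continuousAt]
    intro x
    exact (hasDerivAt2 (diffAt hO hF (hmem x))).continuousAt
  have hder : ∀ x : ℝ, HasDerivAt (fun x => D2 v (τ, x) * w x - v (τ, x) * w' x)
      (D2 (D2 v) (τ, x) * w x + (n : ℝ) ^ 2 * (v (τ, x) * w x)) x := by
    intro x
    have e1 := (hasDerivAt2 (diffAt hO h2 (hmem x))).mul (hw x)
    have e2 := (hasDerivAt2 (diffAt hO hv (hmem x))).mul (hw' x)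
    exact HasDerivAt.congr_deriv (e1.sub e2) (by ring)
  have hint : IntervalIntegrable (fun x => D2 (D2 v) (τ, x) * w x + (n : ℝ) ^ 2 * (v (τ, x) * w x))
      volume 0 (2 * π) :=
    (((hc _ h22).mul hcw).add (((hc _ hv).mul hcw).const_mul _)).intervalIntegrable _ _
  have key := intervalIntegral.integral_eq_sub_of_hasDerivAt (a := 0) (b := 2 * π)
    (fun x _ => hder x) hint
  have p1 : D2 v (τ, 2 * π) = D2 v (τ, 0) := by
    have := D2_per hper τ 0
    simpa using this
  have p2 : v (τ, 2 * π) = v (τ, 0) := by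
    have := hper τ 0
    simpa using this
  have hi1 : IntervalIntegrable (fun x => D2 (D2 v) (τ, x) * w x) volume 0 (2 * π) :=
    ((hc _ h22).mul hcw).intervalIntegrable _ _
  have hi2 : IntervalIntegrable (fun x => (n : ℝ) ^ 2 * (v (τ, x) * w x)) volume 0 (2 * π) :=
    (((hc _ hv).mul hcw).const_mul _).intervalIntegrable _ _
  rw [p1, p2, hwp, hwp', sub_self, intervalIntegral.integral_add hi1 hi2,
    intervalIntegral.integral_const_mul] at key
  linarith

/-- evolution of a mode -/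
theorem mode_evol (h : GExpo) {κ : ℝ} (hκ : 0 < κ) (hκ1 : κ < 1) {v : ℝ × ℝ → ℝ} {τ₀ : ℝ}
    (hv : DecSol κ v τ₀) (n : ℕ) (w w' : ℝ → ℝ)
    (hw : ∀ x, HasDerivAt w (w' x) x) (hw' : ∀ x, HasDerivAt w' (-((n : ℝ) ^ 2 * w x)) x)
    (hwp : w (2 * π) = w 0) (hwp' : w' (2 * π) = w' 0) (hwb : ∀ x, |w x| ≤ 1)
    (τ τ₁ : ℝ) (hτ : τ < τ₀) (hτ₁ : τ₁ < τ₀) :
    ∫ θ in (0 : ℝ)..(2 * π), v (τ, θ) * w θ =
      Real.exp (aa κ n * (τ - τ₁)) * ∫ θ in (0 : ℝ)..(2 * π), v (τ₁, θ) * w θ := by
  obtain ⟨hs, heq, hper, A, γ, hγ, hA⟩ := hv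
  obtain ⟨ha0, ha1, hb0, hab, hmono, hsq, hle, hbpos⟩ := h κ hκ hκ1
  have hO := open_half τ₀
  have h1 := smoothD1 hO hs
  have h2 := smoothD2 hO hs
  have h11 := smoothD1 hO h1
  have h22 := smoothD2 hO h2
  have hcw : Continuous w := continuous_iff_continuousAt.2 fun x => (hw x).continuousAt
  have hc : ∀ F : ℝ × ℝ → ℝ, ContDiffOn ℝ ∞ F {z | z.1 < τ₀} → ∀ τ, τ < τ₀ →
      Continuous fun x => F (τ, x) := by
    intro F hF τ hτ
    rw [continuous_iff_continuousAt]
    intro x
    exact (hasDerivAt2 (diffAt hO hF (show ((τ, x) : ℝ × ℝ) ∈ {z : ℝ × ℝ | z.1 < τ₀} from hτ))).continuousAt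
  have hapos : 0 < aa κ n := by
    have : aa κ 0 ≤ aa κ n := by
      have hm : Monotone (aa κ) := monotone_nat_of_le_succ fun n => (hmono n).le
      exact hm (Nat.zero_le n)
    rw [ha0] at this
    linarith
  have hbnn : 0 ≤ bb κ n := by
    rcases Nat.eq_zero_or_pos n with h0 | h0
    · rw [h0, hb0]
    · exact (hbpos n h0).le
  have hbb : aa κ n - bb κ n = 1 - κ := by unfold bb; ring
  apply ode_decay (aa κ n) (bb κ n) hapos hbnn
    (fun τ => ∫ θ in (0 : ℝ)..(2 * π), v (τ, θ) * w θ)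
    (fun τ => ∫ θ in (0 : ℝ)..(2 * π), D1 v (τ, θ) * w θ)
    (fun τ => ∫ θ in (0 : ℝ)..(2 * π), D1 (D1 v) (τ, θ) * w θ) τ₀ ?_ ?_ ?_ ?_ τ τ₁ hτ hτ₁
  · intro t ht
    exact hasDerivAt_int hO hs w hcw 0 (2 * π) (by positivity) t (fun x _ => ht)
  · intro t ht
    exact hasDerivAt_int hO h1 w hcw 0 (2 * π) (by positivity) t (fun x _ => ht)
  · intro t ht
    have e := int_D2D2 hs hper n w w' hw hw' hwp hwp' t ht
    have e2 : ∫ θ in (0 : ℝ)..(2 * π), (D1 (D1 v) (t, θ) * w θ - (1 - κ) * (D1 v (t, θ) * w θ)) =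
        ∫ θ in (0 : ℝ)..(2 * π), -(κ * (D2 (D2 v) (t, θ) * w θ)) := by
      apply intervalIntegral.integral_congr
      intro x _
      have := heq (t, x) ht
      unfold LL at this
      have e3 : D1 (D1 v) (t, x) - (1 - κ) * D1 v (t, x) = -(κ * D2 (D2 v) (t, x)) := by linarith
      show D1 (D1 v) (t, x) * w x - (1 - κ) * (D1 v (t, x) * w x) = -(κ * (D2 (D2 v) (t, x) * w x))
      have e4 : D1 (D1 v) (t, x) * w x - (1 - κ) * (D1 v (t, x) * w x)
        = (D1 (D1 v) (t, x) - (1 - κ) * D1 v (t, x)) * w x := by ring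
      rw [e4, e3]
      ring
    have hi1 : IntervalIntegrable (fun x => D1 (D1 v) (t, x) * w x) volume 0 (2 * π) :=
      ((hc _ h11 t ht).mul hcw).intervalIntegrable _ _
    have hi2 : IntervalIntegrable (fun x => (1 - κ) * (D1 v (t, x) * w x)) volume 0 (2 * π) :=
      (((hc _ h1 t ht).mul hcw).const_mul _).intervalIntegrable _ _
    rw [intervalIntegral.integral_sub hi1 hi2,
      intervalIntegral.integral_const_mul, intervalIntegral.integral_neg,
      intervalIntegral.integral_const_mul, e] at e2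
    show (∫ θ in (0 : ℝ)..(2 * π), D1 (D1 v) (t, θ) * w θ) - (aa κ n - bb κ n) *
      (∫ θ in (0 : ℝ)..(2 * π), D1 v (t, θ) * w θ) = aa κ n * bb κ n *
      ∫ θ in (0 : ℝ)..(2 * π), v (t, θ) * w θ
    rw [hbb, hab n, e2]
    ring
  · -- decay
    have hbd : ∀ t < τ₀, |∫ θ in (0 : ℝ)..(2 * π), v (t, θ) * w θ| ≤
        A * Real.exp (γ * t) * |2 * π - 0| := by
      intro t ht
      have := intervalIntegral.norm_integral_le_of_norm_le_const (a := 0) (b := 2 * π)
        (C := A * Real.exp (γ * t)) (f := fun θ => v (t, θ) * w θ) (fun x _ => by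
          rw [Real.norm_eq_abs, abs_mul]
          calc |v (t, x)| * |w x| ≤ |v (t, x)| * 1 := by gcongr; exact hwb x
            _ = |v (t, x)| := mul_one _
            _ ≤ A * Real.exp (γ * t) := hA (t, x) ht)
      simpa using this
    have hl : Tendsto (fun t => A * Real.exp (γ * t) * |2 * π - 0|) atBot (𝓝 0) := by
      have : Tendsto (fun t => A * Real.exp (γ * t) * |2 * π - 0|) atBot
          (𝓝 (A * 0 * |2 * π - 0|)) := by
        apply Tendsto.mul_const
        apply Tendsto.const_mul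
        exact Real.tendsto_exp_atBot.comp (Tendsto.const_mul_atBot hγ tendsto_id)
      simpa using this
    refine squeeze_zero_norm' ?_ hl
    filter_upwards [eventually_lt_atBot τ₀] with t ht
    exact hbd t ht

theorem pkF1 (h : GExpo) : GF1 := by
  intro κ hκ hκ1 v τ₀ hv n τ τ₁ hle hτ₁
  have hτ : τ < τ₀ := lt_of_le_of_lt hle hτ₁
  have hper1 : Real.cos (n * (2 * π)) = Real.cos (n * 0) := by
    rw [mul_zero, Real.cos_zero]
    exact Real.cos_nat_mul_two_pi n
  have hper2 : Real.sin (n * (2 * π)) = Real.sin (n * 0) := by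
    rw [mul_zero, Real.sin_zero]
    have := Real.sin_nat_mul_pi (2 * n)
    push_cast at this
    rw [← this]
    congr 1
    ring
  have hmulc : ∀ x : ℝ, HasDerivAt (fun y : ℝ => (n : ℝ) * y) (n : ℝ) x := by
    intro x
    simpa using (hasDerivAt_id x).const_mul (n : ℝ)
  constructor
  · refine mode_evol h hκ hκ1 hv n (fun θ => Real.cos (n * θ)) (fun θ => -((n : ℝ) * Real.sin (n * θ)))
      ?_ ?_ hper1 ?_ ?_ τ τ₁ hτ hτ₁
    · intro x
      exact HasDerivAt.congr_deriv (hmulc x).cos (by ring)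
    · intro x
      exact HasDerivAt.congr_deriv (((hmulc x).sin).const_mul (n : ℝ)).neg (by ring)
    · show -((n : ℝ) * Real.sin (n * (2 * π))) = -((n : ℝ) * Real.sin (n * 0))
      rw [hper2]
    · intro x
      exact Real.abs_cos_le_one _
  · refine mode_evol h hκ hκ1 hv n (fun θ => Real.sin (n * θ)) (fun θ => (n : ℝ) * Real.cos (n * θ))
      ?_ ?_ hper2 ?_ ?_ τ τ₁ hτ hτ₁
    · intro x
      exact HasDerivAt.congr_deriv (hmulc x).sin (by ring)
    · intro x
      exact HasDerivAt.congr_deriv (((hmulc x).cos).const_mul (n : ℝ)) (by ring)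
    · show (n : ℝ) * Real.cos (n * (2 * π)) = (n : ℝ) * Real.cos (n * 0)
      rw [hper1]
    · intro x
      exact Real.abs_sin_le_one _

end Pool.Agent.Helper10.PCap
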